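import Pool.Agent.W97.DB.Defs

/-!
# The dynamical Brauer–Manin conjecture fails

`X = P²` over `ℚ`, `f(x : y : z) = (x + z : x + y : z)`, `P = (0 : 0 : 1)`, `Y` the line `x + z = 0`.
The orbit of `P` consists of the points `(n : n(n-1)/2 : 1)`, `n ≥ 0`, none of which is on `Y`.
Along `n = k! - 1` the orbit tends to `(0 : 1 : 0)` in `P²(ℝ)` and to the point `(-1 : 1 : 1)` of
`n = -1` in every `P²(ℚ_p)`; these points are on `Y`.
-/

set_option autoImplicit false

open Filter Topology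

namespace Pool.Agent.Results.MP_80da57_nt.DynamicalBrauerManinFails

open Pool.Agent.W97.DB

theorem pt_eq {k : Type} [Field k] {v w : {v : Fin 3 → k // v ≠ 0}} (a : k) (h : a • w.1 = v.1) :
    pt v = pt w := (Projectivization.mk_eq_mk_iff' k v.1 w.1 v.2 w.2).2 ⟨a, h⟩

/-- the vector of the `n`-th point -/
def vec (k : Type) [Field k] (t : k) : {v : Fin 3 → k // v ≠ 0} :=
  ⟨![t, t * (t - 1) / 2, 1], fun h => one_ne_zero (congrFun h 2)⟩

theorem iter (n : ℕ) : f^[n] P = pt (vec ℚ n) := by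
  induction n with
  | zero =>
    apply pt_eq 1
    funext i
    fin_cases i <;> simp [vec]
  | succ n ih =>
    rw [Function.iterate_succ_apply', ih]
    change Projectivization.map lin lin_inj (Projectivization.mk ℚ _ _) = _
    rw [Projectivization.map_mk]
    refine (Projectivization.mk_eq_mk_iff' ℚ _ _ _ _).2 ⟨1, ?_⟩
    funext i
    fin_cases i
    · simp [vec, lin]
    · simp [vec, lin]; ring
    · simp [vec, lin]

theorem loc_pt (k : Type) [Field k] [CharZero k] (n : ℕ) : loc k (pt (vec ℚ n)) = pt (vec k n) := by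
  change Projectivization.map (incl k) (incl_inj k) (Projectivization.mk ℚ _ _) = _
  rw [Projectivization.map_mk]
  refine (Projectivization.mk_eq_mk_iff' k _ _ _ _).2 ⟨1, ?_⟩
  funext i
  fin_cases i <;> simp [vec, incl]

theorem disj : Y ℚ ∩ orbit = ∅ := by
  rw [Set.eq_empty_iff_forall_notMem]
  rintro x ⟨⟨v, hv, h0⟩, n, hn⟩
  rw [iter] at hn
  have h1 : pt (vec ℚ n) = pt v := hn.trans hv.symm
  obtain ⟨a, ha⟩ := (Projectivization.mk_eq_mk_iff' ℚ _ _ (vec ℚ n).2 v.2).1 h1
  have e0 : a * v.1 0 = n := congrFun ha 0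
  have e2 : a * v.1 2 = 1 := congrFun ha 2
  have : (n : ℚ) + 1 = 0 := by rw [← e0, ← e2, ← mul_add, h0, mul_zero]
  have h3 : (0 : ℚ) ≤ n := Nat.cast_nonneg n
  linarith

theorem cont_pt (k : Type) [Field k] [TopologicalSpace k] : Continuous (pt (k := k)) :=
  continuous_coinduced_rng

/-- the real limit point -/
def qR : {v : Fin 3 → ℝ // v ≠ 0} := ⟨![0, 1, 0], fun h => one_ne_zero (congrFun h 1)⟩

theorem lim_real (u : ℕ → ℕ) (hu : Tendsto u atTop atTop) :
    Tendsto (fun k => pt (vec ℝ (u k))) atTop (𝓝 (pt qR)) := by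
  have hu2 : Tendsto (fun k => ((u k : ℕ) : ℝ)) atTop atTop := tendsto_natCast_atTop_atTop.comp hu
  -- scaled vectors
  let w : ℕ → {v : Fin 3 → ℝ // v ≠ 0} := fun k =>
    ⟨![2 / ((u k : ℝ) - 1), 1, 2 / ((u k : ℝ) * ((u k : ℝ) - 1))],
      fun h => one_ne_zero (congrFun h 1)⟩
  have h1 : ∀ᶠ k in atTop, pt (vec ℝ (u k)) = pt (w k) := by
    filter_upwards [hu.eventually_ge_atTop 2] with k hk
    have hk' : (2 : ℝ) ≤ (u k : ℝ) := by exact_mod_cast hk
    have hx : ((u k : ℝ) - 1) ≠ 0 := by linarith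
    have hy : (u k : ℝ) ≠ 0 := by linarith
    apply pt_eq ((u k : ℝ) * ((u k : ℝ) - 1) / 2)
    funext i
    fin_cases i
    · simp [vec, w]; field_simp
    · simp [vec, w]
    · simp [vec, w]; field_simp
  refine Tendsto.congr' (h1.mono fun k h => h.symm) ?_
  refine ((cont_pt ℝ).tendsto qR).comp ?_
  rw [tendsto_subtype_rng, tendsto_pi_nhds]
  have ha : Tendsto (fun k => (u k : ℝ) - 1) atTop atTop := tendsto_atTop_add_const_right _ _ hu2
  intro i
  fin_cases i
  · exact ha.const_div_atTop 2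
  · exact tendsto_const_nhds
  · exact (hu2.atTop_mul_atTop₀ ha).const_div_atTop 2

/-- the `p`-adic limit point -/
theorem lim_padic (p : ℕ) [Fact p.Prime] (u : ℕ → ℕ)
    (hu : Tendsto (fun k => ((u k : ℕ) : ℚ_[p])) atTop (𝓝 (-1))) :
    Tendsto (fun k => pt (vec ℚ_[p] (u k))) atTop (𝓝 (pt (vec ℚ_[p] (-1)))) := by
  refine ((cont_pt ℚ_[p]).tendsto _).comp ?_
  rw [tendsto_subtype_rng, tendsto_pi_nhds]
  intro i
  fin_cases i
  · exact hu
  · exact (hu.mul (hu.sub_const 1)).div_const 2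
  · exact tendsto_const_nhds

theorem fact_tendsto (p : ℕ) [Fact p.Prime] :
    Tendsto (fun k : ℕ => ((k.factorial - 1 : ℕ) : ℚ_[p])) atTop (𝓝 (-1)) := by
  have h1 : Tendsto (fun k : ℕ => ((k.factorial : ℕ) : ℚ_[p])) atTop (𝓝 0) := by
    rw [tendsto_zero_iff_norm_tendsto_zero]
    have hp : (1 : ℝ) < p := by exact_mod_cast (Fact.out : p.Prime).one_lt
    rw [Metric.tendsto_atTop]
    intro ε hε
    obtain ⟨m, hm⟩ := exists_pow_lt_of_lt_one hε (y := (p : ℝ)⁻¹) (inv_lt_one_of_one_lt₀ hp)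
    refine ⟨p ^ m, fun k hk => ?_⟩
    rw [Real.dist_eq, sub_zero, abs_of_nonneg (norm_nonneg _)]
    have h2 : (p ^ m) ∣ k.factorial :=
      Nat.dvd_factorial (pow_pos (Fact.out : p.Prime).pos m) hk
    have h3 : ‖((k.factorial : ℤ) : ℚ_[p])‖ ≤ (p : ℝ) ^ (-(m : ℤ)) := by
      rw [Padic.norm_int_le_pow_iff_dvd]
      exact_mod_cast h2
    have h4 : (p : ℝ) ^ (-(m : ℤ)) = ((p : ℝ)⁻¹) ^ m := by
      rw [zpow_neg, zpow_natCast, inv_pow]
    rw [h4] at h3
    have h5 : ((k.factorial : ℤ) : ℚ_[p]) = ((k.factorial : ℕ) : ℚ_[p]) := by push_cast; rfl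
    rw [h5] at h3
    exact h3.trans_lt hm
  have h2 : (fun k : ℕ => ((k.factorial - 1 : ℕ) : ℚ_[p])) =
      fun k : ℕ => ((k.factorial : ℕ) : ℚ_[p]) - 1 := by
    funext k
    rw [Nat.cast_sub (Nat.one_le_iff_ne_zero.2 (Nat.factorial_ne_zero k)), Nat.cast_one]
  rw [h2]
  simpa using h1.sub_const 1

/-- The adelic points of `Y` in the adelic closure of the orbit are not in the adelic closure of the
orbit points on `Y`: the latter is empty and the former is not. -/
theorem result : Y ℚ ∩ orbit = ∅ ∧ (YA ∩ adelicClosure orbit).Nonempty ∧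
    adelicClosure (Y ℚ ∩ orbit) ≠ YA ∩ adelicClosure orbit := by
  have h1 : (YA ∩ adelicClosure orbit).Nonempty := by
    let q : Adelic := (pt qR, fun p => pt (vec ℚ_[(p : ℕ)] (-1)))
    refine ⟨q, ⟨⟨qR, rfl, ?_⟩, fun p => ⟨vec ℚ_[(p : ℕ)] (-1), rfl, ?_⟩⟩, ?_⟩
    · simp [qR]
    · simp [vec]
    · let x : ℕ → P2 ℚ := fun k => f^[k.factorial - 1] P
      have hx : Tendsto (fun k => diag (x k)) atTop (𝓝 q) := by
        have hu : Tendsto (fun k : ℕ => k.factorial - 1) atTop atTop := by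
          have h2 : Tendsto (fun k : ℕ => k - 1) atTop atTop := tendsto_sub_atTop_nat 1
          exact tendsto_atTop_mono (fun k => Nat.sub_le_sub_right (Nat.self_le_factorial k) 1) h2
        have a1 : Tendsto (fun k => loc ℝ (x k)) atTop (𝓝 (pt qR)) := by
          have : (fun k => loc ℝ (x k)) = fun k => pt (vec ℝ ((k.factorial - 1 : ℕ) : ℝ)) := by
            funext k
            simp only [x]
            rw [iter, loc_pt]
          rw [this]
          exact lim_real _ hu
        have a2 : Tendsto (fun k => fun p : Nat.Primes => loc ℚ_[(p : ℕ)] (x k)) atTop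
            (𝓝 (fun p => pt (vec ℚ_[(p : ℕ)] (-1)))) := by
          rw [tendsto_pi_nhds]
          intro p
          have : (fun k => loc ℚ_[(p : ℕ)] (x k)) =
              fun k => pt (vec ℚ_[(p : ℕ)] ((k.factorial - 1 : ℕ) : ℚ_[(p : ℕ)])) := by
            funext k
            simp only [x]
            rw [iter, loc_pt]
          rw [this]
          exact lim_padic p _ (fact_tendsto p)
        exact a1.prodMk_nhds a2
      exact mem_closure_of_tendsto hx (Eventually.of_forall fun k => ⟨x k, ⟨_, rfl⟩, rfl⟩)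
  refine ⟨disj, h1, fun h => ?_⟩
  rw [← h, disj] at h1
  unfold adelicClosure at h1
  rw [Set.image_empty, closure_empty] at h1
  exact Set.not_nonempty_empty h1

end Pool.Agent.Results.MP_80da57_nt.DynamicalBrauerManinFails
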